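import Pool.Agent.Work.MP_7792ce_al.Main

/-!
Transversal probability versus commuting probability: the full statement.
-/

namespace Pool.Agent.Results.MP_7792ce_al.Full

open Pool.Agent.Work.MP_7792ce_al

theorem result (G : Type*) [Group G] [Finite G] :
    (¬ ((∀ K : Subgroup G, K.Normal) ∧ ¬ ∀ a b : G, a * b = b * a) →
        ¬ Nonempty (G ≃* QuaternionGroup 4) → tp G ≤ (commProb G : ℝ)) ∧
    ((∀ K : Subgroup G, K.Normal) → (¬ ∀ a b : G, a * b = b * a) →
        (commProb G : ℝ) / tp G = 5 / 8) ∧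
    (Nonempty (G ≃* QuaternionGroup 4) → (commProb G : ℝ) / tp G = 7 / 8) ∧
    (tp G = (commProb G : ℝ) → (∀ a b : G, a * b = b * a) ∨
        ∃ n : ℕ, 1 ≤ n ∧ Nonempty (G ≃* PresentedGroup (relG n))) ∧
    (∀ n : ℕ, 1 ≤ n → Nonempty (G ≃* PresentedGroup (relG n)) →
        tp G = 1 / 2 ∧ (commProb G : ℝ) = 1 / 2) := by
  refine ⟨fun h1 h2 => ?_, fun h1 h2 => ?_, fun ⟨e⟩ => ?_, fun h => ?_,
    fun n hn ⟨e⟩ => values_pres hn e⟩
  · by_cases hK : ∀ K : Subgroup G, K.Normal
    · have hc : ∀ a b : G, a * b = b * a := by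
        by_contra hc
        exact h1 ⟨hK, hc⟩
      obtain ⟨e1, e2⟩ := values_comm hc
      rw [e1, e2]
    · rcases main hK with h | h | ⟨n, hn, ⟨e⟩⟩
      · exact h.le
      · exact absurd h h2
      · obtain ⟨e1, e2⟩ := values_pres hn e
        rw [e1, e2]
  · rw [cp_dedekind h1 h2, tp_dedekind h1]
    norm_num
  · obtain ⟨e1, e2⟩ := values_Q16 e
    rw [e1, e2]
    norm_num
  · by_cases hc : ∀ a b : G, a * b = b * a
    · exact Or.inl hc
    right
    by_cases hK : ∀ K : Subgroup G, K.Normal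
    · rw [cp_dedekind hK hc, tp_dedekind hK] at h
      norm_num at h
    · rcases main hK with h' | ⟨⟨e⟩⟩ | h'
      · exact absurd h h'.ne
      · obtain ⟨e1, e2⟩ := values_Q16 e
        rw [e1, e2] at h
        norm_num at h
      · exact h'

end Pool.Agent.Results.MP_7792ce_al.Full
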